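import Mathlib

/-!
# Project GQ (helper201): the largest `p`-th moment of a centred Gaussian quadratic form

Row MP_c22ba5_pr.  Paper proof: helper298 (notes of the row), reorganised here.

Aim: for `p > 2`, `∑ a i ^ 2 = 1`: `E |∑ a i (g i ^ 2 - 1)| ^ p ≤ E |g ^ 2 - 1| ^ p`.

Conventions.  `chi ν` is the chi-square law with `ν > 0` degrees of freedom, `w ∼ chi 2` is the
exponential law of mean 2, `ev s x = |x| ^ s`, `od s x = sign x * |x| ^ s`.  Everything is written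
with `chi 1` variables `u i` (the squares of the Gaussian variables).
Each `def S_XXX : Prop` is one job: prove `theorem xxx : S_XXX`.
All statements are for real exponents; note `0 ^ s = 0` for `s ≠ 0` in Lean.
-/

namespace Q201.GQ

open MeasureTheory ProbabilityTheory Real

/-- chi-square law with `ν` degrees of freedom -/
noncomputable def chi (ν : ℝ) : Measure ℝ := gammaMeasure (ν / 2) (1 / 2)

/-- the density of `chi ν` -/
noncomputable def hd (ν u : ℝ) : ℝ :=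
  if 0 < u then u ^ (ν / 2 - 1) * exp (-u / 2) / (2 ^ (ν / 2) * Gamma (ν / 2)) else 0

/-- even power -/
noncomputable def ev (s x : ℝ) : ℝ := |x| ^ s

/-- odd power -/
noncomputable def od (s x : ℝ) : ℝ := Real.sign x * |x| ^ s

variable {ι : Type} [Fintype ι]

/-- the quadratic form -/
def X (a u : ι → ℝ) : ℝ := ∑ i, a i * (u i - 1)

/-- the law of independent `chi 1` variables -/
noncomputable def P (ι : Type) [Fintype ι] : Measure (ι → ℝ) := Measure.pi fun _ : ι => chi 1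

/-- the absolute moment -/
noncomputable def mom (p : ℝ) (a : ι → ℝ) : ℝ := ∫ u, ev p (X a u) ∂(P ι)

noncomputable def mu (p : ℝ) (a : ι → ℝ) : ℝ := ∫ u, od (p - 1) (X a u) ∂(P ι)

noncomputable def L (p : ℝ) (a : ι → ℝ) (b : ℝ) : ℝ :=
  ∫ z, ev (p - 2) (X a z.1 + b * z.2) ∂((P ι).prod (chi 2))

noncomputable def W (p : ℝ) (a : ι → ℝ) (b : ℝ) : ℝ :=
  ∫ z, z.2 * ev (p - 2) (X a z.1 + b * z.2) ∂((P ι).prod (chi 2))

/-- rotation of two coordinates -/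
noncomputable def rot [DecidableEq ι] (a : ι → ℝ) (i j : ι) (t : ℝ) : ι → ℝ :=
  Function.update (Function.update a i (a i * cos t - a j * sin t)) j (a i * sin t + a j * cos t)

/-- measurable functions of polynomial growth -/
def PG (f : ℝ → ℝ) : Prop := Measurable f ∧ ∃ K : ℝ, ∃ N : ℕ, ∀ x, |f x| ≤ K * (1 + |x|) ^ N

/-! ## 1. Basic facts on the laws -/

/-- JOB GQ-1.  Basic facts.  `gammaMeasure` is `volume.withDensity (gammaPDF a r)` with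
`gammaPDFReal a r x = if 0 ≤ x then r^a / Γ(a) * x^(a-1) * exp(-(r*x)) else 0`, which agrees with
`hd ν` except at `x = 0` (a null set).  Probability: `isProbabilityMeasure_gammaMeasure`.
Integral formula: `integral_withDensity_eq_integral_toReal_smul` and restriction to `Ioi 0`
(it holds for every `f`, integrable or not).  Moments: `(1+|u|)^N * u^(ν/2-1) * exp(-u/2)` is
integrable on `Ioi 0` (e.g. `Real.GammaIntegral_convergent`, expand `(1+u)^N`, or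
`(1+u)^N exp(-u/4)` is bounded). -/
def S_CHIP : Prop := ∀ ν : ℝ, 0 < ν →
  IsProbabilityMeasure (chi ν) ∧
  (∀ f : ℝ → ℝ, ∫ u, f u ∂(chi ν) = ∫ u in Set.Ioi 0, hd ν u * f u) ∧
  (∀ᵐ u ∂(chi ν), 0 < u) ∧
  (∀ N : ℕ, Integrable (fun u => (1 + |u|) ^ N) (chi ν)) ∧
  (∀ x : ℝ, chi ν {x} = 0) ∧
  (∀ f : ℝ → ℝ, Integrable f (chi ν) ↔ IntegrableOn (fun u => hd ν u * f u) (Set.Ioi 0)) ∧
  (∀ f : ℝ → ENNReal, Measurable f →
    ∫⁻ u, f u ∂(chi ν) = ∫⁻ u in Set.Ioi 0, ENNReal.ofReal (hd ν u) * f u)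

/-- JOB GQ-2.  `u * hd ν u = ν * hd (ν+2) u`, because `Γ(ν/2+1) = (ν/2) Γ(ν/2)`. -/
def S_CHIMUL : Prop := ∀ ν : ℝ, 0 < ν →
  (∀ u : ℝ, u * hd ν u = ν * hd (ν + 2) u) ∧
  (∀ f : ℝ → ℝ, ∫ u, u * f u ∂(chi ν) = ν * ∫ u, f u ∂(chi (ν + 2))) ∧
  (∀ f : ℝ → ℝ, Integrable (fun u => u * f u) (chi ν) ↔ Integrable f (chi (ν + 2)))

/-- JOB GQ-3.  Additivity of chi-square laws.  For a measurable `f ≥ 0` (`lintegral`, Tonelli,
translation invariance): `∫∫ f(s+t) hd ν s hd ν' t = ∫ f(u) (∫_0^u hd ν s hd ν' (u-s) ds) du`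
and the inner integral is `exp(-u/2) u^{(ν+ν')/2-1} B(ν/2,ν'/2) / (2^{(ν+ν')/2} Γ Γ')`,
`= hd (ν+ν') u` by the Beta integral (Mathlib: `Real.Gamma_mul_Gamma_eq_betaIntegral` /
`Complex.Gamma_mul_Gamma_eq_betaIntegral`, `Complex.betaIntegral_scaled`).  Alternatively:
characteristic functions / moment generating functions, or the constant may be identified
without the Beta integral, since both sides are probability densities. -/
def S_CHICONV : Prop := ∀ ν ν' : ℝ, 0 < ν → 0 < ν' →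
  ((chi ν).prod (chi ν')).map (fun z : ℝ × ℝ => z.1 + z.2) = chi (ν + ν')

/-- JOB GQ-4.  The square of a standard normal variable has law `chi 1`. -/
def S_CHIG : Prop := (gaussianReal 0 1).map (fun x : ℝ => x ^ 2) = chi 1

/-- JOB GQ-5.  One exponential variable smooths `|x + b w| ^ s`, `s > -1`.  For `b ≠ 0` and
`ν ≥ 2` the density `hd ν` is bounded by some `C`, so for `s < 0`:
`∫ |x+bw|^s hd ν w dw ≤ ∫_{|x+bw|≥1} hd ν + C ∫_{|x+bw|<1} |x+bw|^s dw ≤ 1 + 2C/(|b|(s+1))`;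
for `s ≥ 0`: `|x+bw|^s ≤ (1+|x|+|b||w|)^N`, `N ≥ s` a natural number. -/
def S_INTS : Prop := ∀ s : ℝ, -1 < s → ∀ b : ℝ, b ≠ 0 → ∀ ν : ℝ, 2 ≤ ν →
  (∀ x, Integrable (fun w => |x + b * w| ^ s) (chi ν)) ∧
  ∃ K : ℝ, ∃ N : ℕ, 0 ≤ K ∧ ∀ x, ∫ w, |x + b * w| ^ s ∂(chi ν) ≤ K * (1 + |x|) ^ N

/-- JOB GQ-6.  The exponential step, `w ∼ chi 2` (density `exp(-w/2)/2` on `(0,∞)`).
For `σ > 0`, `od σ` and `ev σ` are continuous and `(od σ)' = σ ev (σ-1)`,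
`(ev σ)' = σ od (σ-1)` off `0`, the derivative is locally integrable; integrate by parts
`∫_0^∞ F'(x+bw) b exp(-w/2) dw = [F(x+bw) exp(-w/2)] + (1/2)∫ F(x+bw) exp(-w/2) dw`
(for instance `MeasureTheory.integral_Ioi_mul_deriv_eq_deriv_mul` does not apply directly at the
zero of `x+bw`; split the half-line there, or use
`intervalIntegral.integral_eq_sub_of_hasDerivAt_of_countable`-type versions:
`MeasureTheory.integral_Ioi_of_hasDerivAt_of_tendsto` has a version with a countable exceptional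
set for interval integrals).  For `b = 0` both sides are trivial. -/
def S_STEP : Prop := ∀ s : ℝ, 0 < s → ∀ x b : ℝ,
  (∫ w, od s (x + b * w) ∂(chi 2) = od s x + 2 * b * s * ∫ w, ev (s - 1) (x + b * w) ∂(chi 2)) ∧
  (∫ w, ev s (x + b * w) ∂(chi 2) = ev s x + 2 * b * s * ∫ w, od (s - 1) (x + b * w) ∂(chi 2))

/-- JOB GQ-7.  Integrability of functions of polynomial growth under the product laws
(moments of all orders of the factors; bound `(1+∑|z i|+|w|+|w'|)^N` by a product: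
`1+∑|z i|+... ≤ ∏ (1+|z i|) * (1+|w|) * (1+|w'|)` and `Integrable.fintype_prod`-style lemmas,
`Integrable.mul_prod`).  Facts of `S_CHIP` are hypotheses. -/
def S_INT3 : Prop := S_CHIP → ∀ (ι : Type) [Fintype ι],
  IsProbabilityMeasure (P ι) ∧
  (∀ h : (ι → ℝ) → ℝ, Measurable h →
    (∃ K : ℝ, ∃ N : ℕ, ∀ z, |h z| ≤ K * (1 + ∑ i, |z i|) ^ N) → Integrable h (P ι)) ∧
  (∀ h : (ι → ℝ) × ℝ → ℝ, Measurable h →
    (∃ K : ℝ, ∃ N : ℕ, ∀ z, |h z| ≤ K * (1 + ∑ i, |z.1 i| + |z.2|) ^ N) →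
      Integrable h ((P ι).prod (chi 2))) ∧
  (∀ h : (ι → ℝ) × ℝ × ℝ → ℝ, Measurable h →
    (∃ K : ℝ, ∃ N : ℕ, ∀ z, |h z| ≤ K * (1 + ∑ i, |z.1 i| + |z.2.1| + |z.2.2|) ^ N) →
      Integrable h ((P ι).prod ((chi 2).prod (chi 2))))

/-! ## 2. Integration by parts and the identity for `L` -/

/-- JOB GQ-8.  Integration by parts: for one coordinate `u i ∼ chi 1` and the rest fixed
(`Measure.pi` split along the coordinate `i`, e.g. `measurePreserving_piFinSuccAbove`-type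
equivalence `MeasurableEquiv.piEquivPiSubtypeProd`, or
`MeasureTheory.measurePreserving_piUnique...`), `∫ (u-1) F(u) dchi 1 = ∫ F dchi 3 - ∫ F dchi 1`
(`S_CHIMUL` with `ν = 1`) and `chi 3` is the law of `u + w` (`S_CHICONV`). -/
def S_IBP : Prop := S_CHIP → S_CHIMUL → S_CHICONV → S_INT3 →
  ∀ (ι : Type) [Fintype ι] (f : ℝ → ℝ), PG f → ∀ (a : ι → ℝ) (i : ι) (b : ℝ),
  (∫ u, (u i - 1) * f (X a u) ∂(P ι)
    = (∫ z, f (X a z.1 + a i * z.2) ∂((P ι).prod (chi 2))) - ∫ u, f (X a u) ∂(P ι)) ∧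
  (∫ z, (z.1 i - 1) * f (X a z.1 + b * z.2) ∂((P ι).prod (chi 2))
    = (∫ z, f (X a z.1 + (b * z.2.1 + a i * z.2.2)) ∂((P ι).prod ((chi 2).prod (chi 2))))
      - ∫ z, f (X a z.1 + b * z.2) ∂((P ι).prod (chi 2)))

/-- JOB GQ-9.  Two exponential variables.  Density of `b w + d w'`: substitute.  Simplest route:
put `F(b,d) = ∫∫ f(x+bw+dw') (1/4) exp(-(w+w')/2)`.  For `b ≠ d` change variables
`v = w + w'`, `t = w`: for fixed `v`, `y = b t + d (v - t)`... or verify the identity by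
Fubini on `{(w, w')}`: with `g(y) = f(x+y)`, `∫_0^∞∫_0^∞ g(bw+dw') e^{-(w+w')/2} dw dw'`;
substitute `w = r (1-θ)`, `w' = r θ`, `r>0`, `θ ∈ (0,1)`, Jacobian `r`: it is
`∫_r r e^{-r/2} ∫_θ g(r (b + (d-b)θ)) dθ dr`, and
`∫_θ r g(r(b+(d-b)θ)) dθ = (1/(b-d)) ∫_{rd}^{rb} g`, then integrate by parts in `r`:
`∫_r e^{-r/2} (∫_{rd}^{rb} g) dr = 2∫_r e^{-r/2} (b g(rb) - d g(rd)) dr`
(`f` only measurable: `r ↦ ∫_{rd}^{rb} g` is absolutely continuous; alternatively use Fubini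
again instead of integration by parts).  For `b = d`: `w + w'` has law `chi 4` (`S_CHICONV`) and
`∫ w f(x+bw) dchi 2 = 2 ∫ f(x+bw) dchi 4` (`S_CHIMUL`). -/
def S_RES : Prop := S_CHIP → S_CHIMUL → S_CHICONV → S_INT3 →
  ∀ f : ℝ → ℝ, PG f → ∀ x b d : ℝ,
  (b ≠ d → ∫ z, f (x + (b * z.1 + d * z.2)) ∂((chi 2).prod (chi 2))
    = (b * (∫ w, f (x + b * w) ∂(chi 2)) - d * ∫ w, f (x + d * w) ∂(chi 2)) / (b - d)) ∧
  ∫ z, f (x + (b * z.1 + b * z.2)) ∂((chi 2).prod (chi 2))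
    = (1 / 2) * ∫ w, w * f (x + b * w) ∂(chi 2)

/-- JOB GQ-10.  `G(b) = E od(p-1)(X + b w) = mu + 2 b (p-1) L(b)` (integrate `S_STEP`), and
`G'(b) = (p-1) W(b)` (differentiation under the integral,
`hasDerivAt_integral_of_dominated_loc_of_deriv_le`; `od (p-1)` is `C^1` with derivative
`(p-1) ev (p-2)` since `p > 2`).  Hence `L` is differentiable off `0`. -/
def S_DERL : Prop := S_CHIP → S_STEP → S_INT3 →
  ∀ (ι : Type) [Fintype ι] (p : ℝ), 2 < p → ∀ a : ι → ℝ,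
  (∀ b, ∫ z, od (p - 1) (X a z.1 + b * z.2) ∂((P ι).prod (chi 2))
    = mu p a + 2 * b * (p - 1) * L p a b) ∧
  (∀ b, b ≠ 0 → HasDerivAt (L p a) ((W p a b - 2 * L p a b) / (2 * b)) b)

/-- JOB GQ-11.  Joint continuity of `L`, `W` and `mom` (dominated convergence:
`continuous_of_dominated` on bounded sets, e.g. via `continuous_iff_continuousAt` and
`continuousAt_of_dominated`; `ev` with positive exponent is continuous). -/
def S_CONTL : Prop := S_CHIP → S_INT3 →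
  ∀ (ι : Type) [Fintype ι] (p : ℝ), 2 < p →
  Continuous (fun q : (ι → ℝ) × ℝ => L p q.1 q.2) ∧
  Continuous (fun q : (ι → ℝ) × ℝ => W p q.1 q.2) ∧
  Continuous (fun a : ι → ℝ => mom p a)

/-- JOB GQ-12.  The main identity.  Put `K(b,d) = E ev(p-2)(X + b w + d w')`.
`x * ev (p-2) x = od (p-1) x`, so (with `S_DERL`, first part)
`mu + 2b(p-1)L(b) = E (X+bw) ev(p-2)(X+bw) = ∑ a j E (u j - 1) ev(p-2)(X+bw) + b W(b)`,
by `S_IBP` `= ∑ a j (K(b,a j) - L(b)) + b W(b)`.  By `S_RES` (Fubini, inner integral over the two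
exponential variables): `b ≠ d`: `K(b,d) = (b L(b) - d L(d))/(b-d)`, so
`K(b,a j) - L(b) = a j (L(b)-L(a j))/(b-a j) = a j * dslope L (a j) b`; `b = a j`:
`K(b,b) = W(b)/2` and `W(b)/2 - L(b) = b L'(b)` by `S_DERL`.  Also `b W(b) = 2b(L + b L')`.
(If `a j = 0` the term is zero on both sides.)  Second identity: the same with `b = 0`:
`mu = E X ev(p-2)(X) = ∑ a j E (u j-1) ev(p-2)(X) = ∑ a j (L(a j) - L(0))`. -/
def S_STAR : Prop := S_CHIP → S_CHIMUL → S_CHICONV → S_STEP → S_INT3 → S_IBP → S_RES → S_DERL →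
  ∀ (ι : Type) [Fintype ι] (p : ℝ), 2 < p → ∀ a : ι → ℝ,
  (∀ b, b ≠ 0 → mu p a + 2 * (p - 1) * b * L p a b
    = (∑ j, (a j) ^ 2 * dslope (L p a) (a j) b) + 2 * b * L p a b
      + 2 * b ^ 2 * deriv (L p a) b) ∧
  mu p a = ∑ j, a j * (L p a (a j) - L p a 0)

/-- JOB GQ-13.  Derivative of the moment along a rotation of two coordinates, `b = rot a i j t`:
`d/dt E|X_b|^p = p E[od(p-1)(X_b) (-b_j (u_i-1) + b_i (u_j-1))]` (dominated differentiation) and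
`E[(u_i-1) od(p-1)(X_b)] = E od(p-1)(X_b+b_i w) - E od(p-1)(X_b) = 2 b_i (p-1) L_b(b_i)`
(`S_IBP` first part and `S_DERL` first part). -/
def S_MROT : Prop := S_CHIP → S_INT3 → S_IBP → S_DERL → S_CHIMUL → S_CHICONV → S_STEP →
  ∀ (ι : Type) [Fintype ι] [DecidableEq ι] (p : ℝ), 2 < p → ∀ (a : ι → ℝ) (i j : ι), i ≠ j →
  ∀ t : ℝ, HasDerivAt (fun t => mom p (rot a i j t))
    (2 * p * (p - 1) * (rot a i j t i * rot a i j t j
      * (L p (rot a i j t) (rot a i j t j) - L p (rot a i j t) (rot a i j t i)))) t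

/-- JOB GQ-14.  Second order condition at a maximiser with two equal coordinates `x ≠ 0`.
`f(t) = mom (rot a i j t)`, `rot ... i = x (cos t - sin t)`, `rot ... j = x (cos t + sin t)`.
`L_b(b_j) - L_b(b_i) = ∫_{b_i}^{b_j} L_b'(c) dc` where `L_b'(c) = (W - 2L)/(2c)` is jointly
continuous in `(b,c)`, `c ≠ 0` (`S_DERL`, `S_CONTL`).  If `x * L_a'(x) > 0` then for small
`t > 0` the derivative `f'(t) = 2p(p-1) b_i b_j (L_b(b_j)-L_b(b_i)) > 0` (mean value theorem: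
`L_b(b_j)-L_b(b_i) = (b_j-b_i) L_b'(c)`, `c` between, `b_j - b_i = 2 x sin t`), so
`f(t) > f(0)`, while `∑ (rot a i j t) k ^ 2 = ∑ a k ^ 2`: contradiction. -/
def S_SECOND : Prop := S_CHIP → S_INT3 → S_STEP → S_DERL → S_CONTL →
  ∀ (ι : Type) [Fintype ι] [DecidableEq ι] (p : ℝ), 2 < p → ∀ a : ι → ℝ,
  (∀ (a : ι → ℝ) (i j : ι), i ≠ j → ∀ t : ℝ, HasDerivAt (fun t => mom p (rot a i j t))
    (2 * p * (p - 1) * (rot a i j t i * rot a i j t j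
      * (L p (rot a i j t) (rot a i j t j) - L p (rot a i j t) (rot a i j t i)))) t) →
  (∀ a' : ι → ℝ, ∑ i, (a' i) ^ 2 = ∑ i, (a i) ^ 2 → mom p a' ≤ mom p a) →
  ∀ i j : ι, i ≠ j → a i = a j → a i ≠ 0 → a i * deriv (L p a) (a i) ≤ 0

/-- JOB GQ-15.  Pure real analysis: at a maximiser there are at most two distinct nonzero
coordinate values.  Write `ℓ = L - lam`, `c = -mu/(2(p-2)lam) ≥ 0`.
(A) If `b ≠ 0`, `L b = lam`: the identity becomes `mu + 2(p-2) b lam = (k+2) b^2 L'(b)`, with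
`k = #{j : a j = b}` (`dslope L (a j) b = 0` if `a j ≠ b`, `a j ≠ 0`, since `L (a j) = lam = L b`;
`= L' b` if `a j = b`), hence `sign L'(b) = sign (b - c)`.
(B) If `L 0 = lam` then `mu = 0` (second identity), so `c = 0`.
(C) A continuous function on an open interval all of whose zeros are strict down-crossings
(`HasDerivAt ℓ d z`, `d < 0`) has at most one zero there; same for up-crossings.  So `ℓ` has at
most one zero in `(c,∞)` (there `b > c ≥ 0`, so `b ≠ 0`) and at most one zero in `(-∞,c)`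
(if `c > 0` then `0` is not a zero by (B); if `c = 0` the interval does not contain `0`).
(D) If `a i = c > 0` for some `i` then no other nonzero value occurs.  Suppose `a j = c' > c`,
nonzero value.  It is the only zero of `ℓ` in `(c,∞)`, with `ℓ'(c') > 0`, so `ℓ < 0` on `(c,c')`.
For `b` in `(c,c')` near `c` the identity reads
`2 b^2 ℓ'(b) = 2(p-2)lam (b-c) + (2(p-2) b - ∑_j a_j^2/(b-a_j)) ℓ(b)`
(sum over the nonzero `a j`); the terms with `a_j = c` tend to `-∞` in the coefficient of `ℓ(b)`,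
the others stay bounded, so the coefficient is negative near `c+`, and `ℓ < 0`: `ℓ' > 0` on
`(c, c+δ)`, with `ℓ(c) = 0` and `ℓ` continuous: `ℓ > 0` on `(c,c+δ)`, contradiction.
The case `c' < c` is symmetric: `ℓ'(c') < 0` (also if `c' < 0`), so `ℓ < 0` on `(c',c)`;
for `b` near `c-` the coefficient is positive (`-c^2/(b-c) → +∞`), `2(p-2)lam(b-c) < 0`,
so `ℓ' < 0` on `(c-δ,c)` and `ℓ(c) = 0`: `ℓ > 0` there, contradiction.
Conclusion: nonzero values are at most one above `c`, at most one below, and `c` only alone. -/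
def S_ANA : Prop := ∀ (ι : Type) [Fintype ι] (p : ℝ), 2 < p →
  ∀ (a : ι → ℝ) (L : ℝ → ℝ) (mu lam : ℝ), Continuous L →
  (∀ b, b ≠ 0 → DifferentiableAt ℝ L b) → mu ≤ 0 → 0 < lam →
  (∀ b, b ≠ 0 → mu + 2 * (p - 1) * b * L b
    = (∑ j, (a j) ^ 2 * dslope L (a j) b) + 2 * b * L b + 2 * b ^ 2 * deriv L b) →
  mu = ∑ j, a j * (L (a j) - L 0) →
  (∀ i, a i ≠ 0 → L (a i) = lam) →
  (∀ i j k, a i ≠ 0 → a j ≠ 0 → a k ≠ 0 → a i = a j ∨ a j = a k ∨ a i = a k) ∧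
  (∀ i j, a i ≠ 0 → a j ≠ 0 → a j < a i → 0 < deriv L (a i) ∧ deriv L (a j) < 0)

/-! ## 3. Laws with one or two values -/

/-- JOB GQ-16.  Law of `X a` if `a` takes the value `x` on `I`, `y` on `J` and `0` elsewhere.
`∑_{i∈I} u i` has law `chi #I` (induction on `#I` with `S_CHICONV`; independence of disjoint
blocks of coordinates under `Measure.pi`: `iIndepFun_pi`, `iIndepFun.indepFun_finset_sum...`,
`indepFun_iff_map_prod_eq_prod_map_map`). -/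
def S_DIST : Prop := S_CHIP → S_CHICONV →
  ∀ (ι : Type) [Fintype ι] [DecidableEq ι] (I J : Finset ι) (x y : ℝ) (a : ι → ℝ),
  I.Nonempty → Disjoint I J → (∀ i ∈ I, a i = x) → (∀ j ∈ J, a j = y) →
  (∀ k, k ∉ I → k ∉ J → a k = 0) →
  (J.Nonempty → (P ι).map (X a) = ((chi I.card).prod (chi J.card)).map
    (fun z : ℝ × ℝ => x * (z.1 - I.card) + y * (z.2 - J.card))) ∧
  (J = ∅ → (P ι).map (X a) = (chi I.card).map (fun z : ℝ => x * (z - I.card)))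

/-- JOB GQ-17.  Consequences of `S_DIST` for `L` and `L'` (`S_CHICONV`: `u + w ∼ chi (k+2)`,
`w + w' ∼ chi 4`, `S_CHIMUL`: `E w f(w) = 2 E f(chi 4)`, `L'(b) = (W-2L)/(2b)` from `S_DERL`). -/
def S_LDIST : Prop := S_CHIP → S_CHIMUL → S_CHICONV → S_STEP → S_INT3 → S_DERL → S_DIST →
  ∀ (ι : Type) [Fintype ι] [DecidableEq ι] (p : ℝ), 2 < p →
  ∀ (I J : Finset ι) (x y : ℝ) (a : ι → ℝ),
  I.Nonempty → Disjoint I J → (∀ i ∈ I, a i = x) → (∀ j ∈ J, a j = y) →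
  (∀ k, k ∉ I → k ∉ J → a k = 0) →
  (J.Nonempty →
    L p a x = ∫ z, ev (p - 2) (x * (z.1 - I.card) + y * (z.2 - J.card))
      ∂((chi (I.card + 2)).prod (chi J.card)) ∧
    L p a y = ∫ z, ev (p - 2) (x * (z.1 - I.card) + y * (z.2 - J.card))
      ∂((chi I.card).prod (chi (J.card + 2))) ∧
    mom p a = ∫ z, ev p (x * (z.1 - I.card) + y * (z.2 - J.card))
      ∂((chi I.card).prod (chi J.card))) ∧
  (J = ∅ →
    (x ≠ 0 → x * deriv (L p a) x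
      = (∫ u, ev (p - 2) (x * (u - I.card)) ∂(chi (I.card + 4)))
        - ∫ u, ev (p - 2) (x * (u - I.card)) ∂(chi (I.card + 2))) ∧
    mom p a = ∫ u, ev p (x * (u - I.card)) ∂(chi I.card))

/-- JOB GQ-18.  Difference formula.  `chi (k+2)` is the law of `u + w`.  With
`E_{α,β} = ∫ ev s (x z1 + y z2 + c) dchi α dchi β`, `O = ∫ od (s-1)(x z1 + y z2 + c)
dchi(k+2) dchi(l+2)`: `S_STEP` with `b = y` gives `E_{k+2,l+2} - E_{k+2,l} = 2 y s O`, with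
`b = x` gives `E_{k+2,l+2} - E_{k,l+2} = 2 x s O`; subtract.  Integrability from `S_INTS`
(`s - 1 > -1`). -/
def S_DIFF : Prop := S_CHIP → S_CHICONV → S_STEP → S_INTS →
  ∀ s : ℝ, 0 < s → ∀ k l : ℝ, 0 < k → 0 < l → ∀ x y c : ℝ,
  (∫ z, ev s (x * z.1 + y * z.2 + c) ∂((chi (k + 2)).prod (chi l)))
    - (∫ z, ev s (x * z.1 + y * z.2 + c) ∂((chi k).prod (chi (l + 2))))
  = 2 * s * (x - y) * ∫ z, od (s - 1) (x * z.1 + y * z.2 + c) ∂((chi (k + 2)).prod (chi (l + 2)))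

/-- JOB GQ-19.  One value.  First part: `hd (k+4)` is right-heavy about `k`: for `0 < t < k`,
`log hd(k+4)(k+t) - log hd(k+4)(k-t) = ((k+2)/2) log((1+y)/(1-y)) - t` with `y = t/k`,
and `log((1+y)/(1-y)) ≥ 2y`, so it is `≥ (k+2) t/k - t > 0`; for `t ≥ k`, `hd (k-t) = 0`.  So
`∫ od s (u-k) dchi(k+4) = ∫_{t>0} t^s (hd(k+t) - hd(k-t)) dt > 0`.
Second part: `chi (k+4)` is the law of `u + w`, `u ∼ chi (k+2)`, so by `S_STEP` (`b = 1`)
the difference is `2 s ∫ od (s-1) (u-k) dchi(k+4) > 0`. -/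
def S_POS1 : Prop := S_CHIP → S_CHICONV → S_STEP → S_INTS →
  (∀ s : ℝ, -1 < s → ∀ k : ℝ, 0 < k → 0 < ∫ u, od s (u - k) ∂(chi (k + 4))) ∧
  (∀ s : ℝ, 0 < s → ∀ k : ℝ, 0 < k →
    ∫ u, ev s (u - k) ∂(chi (k + 2)) < ∫ u, ev s (u - k) ∂(chi (k + 4)))

/-- JOB GQ-20.  Two positive values.  Densities `f(u) = hd (k+2) (k+u)`, `g(v) = hd (l+2)(l+v)`.
`f` is increasing on `(-k,0)`, zero below `-k`, and `f(u) ≥ f(-u)` for `u ≥ 0`
(`(k/2) log((1+y)/(1-y)) - t ≥ 0`, `y = t/k`).  Split `f = fe + fp`, `fe(u) = f(-|u|)` (even,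
nonincreasing in `|u|`, bounded, compact support), `fp = f - fe ≥ 0`, zero for `u ≤ 0`, positive
for `u > k`; same for `g`.  The integral `∫∫ od s (x u + y v) f g` splits in four:
`fe ge`: zero by `(u,v) → (-u,-v)`; `fe gp`: for `v > 0`, `∫ od s (x u + y v) fe(u) du ≥ 0`
(substitute `r = x u + y v`: `∫_{r>0} r^s [h(r - y v) - h(r + y v)] dr`, `h` even nonincreasing
in `|.|`); `fp ge`: same; `fp gp`: positive integrand, strictly positive on `{u>k,v>l}`.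
Integrability: `S_INTS` style bounds (`f`, `g` bounded with exponential tails), `s > -1`. -/
def S_POS2 : Prop := S_CHIP → S_INTS →
  ∀ s : ℝ, -1 < s → ∀ k l : ℝ, 0 < k → 0 < l → ∀ x y : ℝ, 0 < x → 0 < y →
  0 < ∫ z, od s (x * (z.1 - k) + y * (z.2 - l)) ∂((chi (k + 2)).prod (chi (l + 2)))

/-! ## 4. Two values of opposite sign -/

/-- the semicircle density on `[-1,1]` -/
noncomputable def sc (v : ℝ) : ℝ := 2 / π * √(1 - v ^ 2)

/-- JOB GQ-21.  Change of variables `z = (Q(1+V), Q(1-V))`, `Q > 0`, `|V| < 1`, Jacobian `2Q`;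
`hd 3 u = √u exp(-u/2)/√(2π)` (`2^{3/2} Γ(3/2) = √(2π)`), so
`hd 3 (Q(1+V)) * hd 3 (Q(1-V)) * 2Q = (Q^2 exp(-Q)/2) * sc V`. -/
def S_QV : Prop := S_CHIP → ∀ f : ℝ × ℝ → ℝ, Integrable f ((chi 3).prod (chi 3)) →
  Integrable (fun z : ℝ × ℝ => (z.1 ^ 2 * exp (-z.1) / 2 * sc z.2)
    * f (z.1 * (1 + z.2), z.1 * (1 - z.2)))
    ((volume.restrict (Set.Ioi 0)).prod (volume.restrict (Set.Ioo (-1) 1))) ∧
  ∫ z, f z ∂((chi 3).prod (chi 3)) = ∫ q in Set.Ioi (0 : ℝ), (q ^ 2 * exp (-q) / 2)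
    * ∫ v in Set.Ioo (-1 : ℝ) 1, sc v * f (q * (1 + v), q * (1 - v))

/-- `eta s v = E od s (V + v)`, `V` semicircular -/
noncomputable def eta (s v : ℝ) : ℝ := ∫ y in Set.Ioo (-1 : ℝ) 1, sc y * od s (y + v)

/-- JOB GQ-22.  The case `s ≥ 1`.  `ψ(q) = ∫ sc(v) od s (q(d+Dv) - d) dv`.  For `t ≥ 0`:
`ψ(1+t) = (1/2)∫ sc(v)[od s (td+(1+t)Dv) + od s (td-(1+t)Dv)] dv ≥ 0` (`od s` is odd and strictly
increasing), `> 0` for `t > 0`.  For `0 ≤ t ≤ 1`, with `x = Dv`, symmetrise over `v → -v`: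
`ψ(1+t)+ψ(1-t) = (1/2)∫ sc(v) [Φ(td+x+tx) + Φ(td-x-tx) - Φ(td-x+tx) - Φ(td+x-tx)]`,
`Φ = od s`, and the bracket is `Ξ(td+x) - Ξ(td-x)` with `Ξ(N) = Φ(N+tx) - Φ(N-tx)`; take `x ≥ 0`
(the bracket is even in `x`): `Ξ` is even in `N` and nondecreasing in `|N|` because
`Φ' = s|.|^{s-1}` is even and nondecreasing on `[0,∞)` for `s ≥ 1` (`Φ` convex on `[0,∞)`, odd),
and `|td+x| ≥ |td-x|`.  So the bracket is `≥ 0`.  `g(q) = q^2 exp(-q)` satisfies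
`g(1+t) ≥ g(1-t)` for `0 ≤ t ≤ 1` (`2 log((1+t)/(1-t)) ≥ 4t ≥ 2t`).  Hence
`∫_0^2 gψ = ∫_0^1 [(g(1+t)-g(1-t))ψ(1+t) + g(1-t)(ψ(1+t)+ψ(1-t))] dt ≥ 0` and
`∫_2^∞ gψ > 0`. -/
def S_BIGS : Prop := ∀ s : ℝ, 1 ≤ s → ∀ d D : ℝ, 0 < d → 0 < D →
  0 < ∫ q in Set.Ioi (0 : ℝ), (q ^ 2 * exp (-q) / 2)
    * ∫ v in Set.Ioo (-1 : ℝ) 1, sc v * od s (q * (d + D * v) - d)

/-- JOB GQ-23.  `eta s v / v` is nonincreasing on `(0,∞)` for `-1 < s ≤ 1`, `eta s v > 0` for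
`v > 0`, `eta s` is odd and continuous.
Positivity: `eta s v = ∫_{r>0} r^s (sc(r-v) - sc(r+v)) dr`, `sc` even and decreasing in `|.|`.
Let `B(v) = ∫ sc(y) ev(s+1)(y+v)`, `O(v) = ∫ sc(y) od(s+2)(y+v)`; `O' = (s+2) B`,
`B' = (s+1) eta` (`eta` continuous; primitive of a locally integrable kernel).
Stein: `3 ∫ sc(y) y φ(y) dy = ∫ sc(y)(1-y^2) φ'(y) dy` (as `((1-y^2)^{3/2})' = -3y(1-y^2)^{1/2}`).
With `φ(y) = ev(s+1)(y+v)/(s+1)`, `φ' = od s (y+v)`, and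
`1-y^2 = (1-v^2) + 2v(y+v) - (y+v)^2`:
`(1-v^2) eta = ((s+4)/(s+1)) O - ((2s+5)/(s+1)) v B`  for all `v`.          (ii)
Differentiate on `(-1,1)`: `(1-v^2) eta' = (s+3) B - (2s+3) v eta`.          (i)
Put `N = (1-v^2)(v eta' - eta) = (s+3) v B - (1+(2s+2)v^2) eta`; differentiating and using (i):
`(1-v^2) N' = -(2s+3) v N - (1-s^2) v (1-v^2) eta` on `(0,1)`, `N(0) = 0` (`eta 0 = 0`).
If `N(v1) > 0` for some `v1` in `(0,1)`, let `v0` be the last zero before: on `(v0,v1]` `N > 0`,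
so `N' < 0` (`2s+3 > 0`, `eta > 0`), contradiction.  So `N ≤ 0` and `eta/v` is nonincreasing on
`(0,1)`.  For `v > 1`: `v eta' - eta = -∫ sc(y) (y+v)^{s-1} (y + (1-s)v) dy` and with
`φ = (y+v)^{s-1}`, Stein gives `3∫sc y φ = (s-1)∫ sc (1-y^2)(y+v)^{s-2} ≥ -(1-s) ∫ sc (v-y) φ`
(because `1-y^2 ≤ v^2-y^2 = (v-y)(v+y)`), so `Y := ∫ sc y φ ≥ -((1-s)/(2+s)) v ∫ sc φ` and
`Y + (1-s) v ∫ sc φ ≥ 0`.  Continuity at `v = 1` joins the two ranges. -/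
def S_ETA : Prop := ∀ s : ℝ, -1 < s → s ≤ 1 →
  Continuous (eta s) ∧ (∀ v, eta s (-v) = - eta s v) ∧ (∀ v, 0 < v → 0 < eta s v) ∧
  (∀ v v', 0 < v → v ≤ v' → v * eta s v' ≤ v' * eta s v)

/-- JOB GQ-24.  The case `-1 < s ≤ 1`, from `S_ETA`.  For `q > 0`,
`q(d+Dv)-d = Dq (v + c(1-1/q))`, `c = d/D`, so the inner integral is
`(Dq)^s eta s (c (1-1/q))` and the claim is `0 < ∫_0^∞ q^{2+s} exp(-q) η(c(1-1/q)) dq`.
Substitute `w = 1-1/q` for `q > 1` (`w ∈ (0,1)`, `q = 1/(1-w)`, `dq = q^2 dw`) and `-w = 1-1/q`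
for `q < 1` (`w ∈ (0,∞)`, `q = 1/(1+w)`): the integral is `∫_0^∞ η(cw) R(w) dw`,
`R = ρ₊ - ρ₋`, `ρ₊(w) = (1-w)^{-s-4} exp(-1/(1-w)) 1_{w<1}`,
`ρ₋(w) = (1+w)^{-s-4} exp(-1/(1+w))`.  On `(0,1)`,
`log ρ₊ - log ρ₋ = (s+4) log((1+w)/(1-w)) - 2w/(1-w^2)` has derivative
`2((s+3)-(s+5)w^2)/(1-w^2)^2`, so it increases from `0`, then decreases to `-∞`: there is
`w0 ∈ (0,1)` with `R ≥ 0` on `(0,w0)` and `R ≤ 0` on `(w0,∞)`.  Also
`∫_0^∞ w R(w) dw = ∫_0^∞ q^{2+s} exp(-q)(1-1/q) dq = Γ(s+3)-Γ(s+2) = (s+1)Γ(s+2) > 0`.  Since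
`η(cw)/w` is nonincreasing, `(η(cw)/w - η(cw0)/w0) * w R(w) ≥ 0` pointwise; integrate:
`∫ η(cw) R ≥ (η(cw0)/w0)(s+1)Γ(s+2) > 0`.  (Integrability: `|η(v)| ≤ C(1+|v|)`.) -/
def S_SMALLS : Prop := S_ETA → ∀ s : ℝ, -1 < s → s ≤ 1 → ∀ d D : ℝ, 0 < d → 0 < D →
  0 < ∫ q in Set.Ioi (0 : ℝ), (q ^ 2 * exp (-q) / 2)
    * ∫ v in Set.Ioo (-1 : ℝ) 1, sc v * od s (q * (d + D * v) - d)

/-- JOB GQ-25.  Opposite signs, the strict inequality for `L`: combine `S_DIFF`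
(`s := σ`, `k = l = 1`, `x = a`, `y = -b`, `c = b - a`), `S_QV`
(`a Q(1+V) - b Q(1-V) - (a-b) = Q(d+DV) - d`, `d = a-b`, `D = a+b`) and the positivity of the
double integral (hypothesis, all exponents `s > -1`). -/
def S_POS3 : Prop := S_CHIP → S_CHICONV → S_STEP → S_INTS → S_DIFF → S_QV →
  (∀ s : ℝ, -1 < s → ∀ d D : ℝ, 0 < d → 0 < D →
    0 < ∫ q in Set.Ioi (0 : ℝ), (q ^ 2 * exp (-q) / 2)
      * ∫ v in Set.Ioo (-1 : ℝ) 1, sc v * od s (q * (d + D * v) - d)) →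
  ∀ s : ℝ, 0 < s → ∀ a b : ℝ, 0 < b → b < a →
  ∫ z, ev s (a * (z.1 - 1) - b * (z.2 - 1)) ∂((chi 1).prod (chi 3))
    < ∫ z, ev s (a * (z.1 - 1) - b * (z.2 - 1)) ∂((chi 3).prod (chi 1))

/-- JOB GQ-26.  Two coordinates of opposite sign are not maximal: `x > 0 > y`,
`x^2 + y^2 = 1`.  By symmetry (`mom p (-a) = mom p a`, exchange of the coordinates) let
`x ≥ |y|`.  In `ι = Fin 2`, `a = ![1,0]`, `f(t) = mom p (rot a 0 1 t)`,
`rot a 0 1 t = ![cos t, sin t]`; for `t ∈ (-π/4, 0)`, `b_0 = cos t > -b_1 = -sin t > 0` and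
`L_b(b_0) > L_b(b_1)` by the hypothesis `S_POS3`-conclusion and `S_LDIST`, so
`f'(t) = 2p(p-1) b_0 b_1 (L_b(b_1)-L_b(b_0)) > 0`: `f` is strictly increasing on `[-π/4,0]`. -/
def S_OPP : Prop := S_CHIP → S_CONTL → S_INT3 → S_LDIST → S_CHIMUL → S_CHICONV → S_STEP → S_DERL →
  S_DIST →
  ∀ p : ℝ, 2 < p →
  (∀ (a : Fin 2 → ℝ) (i j : Fin 2), i ≠ j → ∀ t : ℝ, HasDerivAt (fun t => mom p (rot a i j t))
    (2 * p * (p - 1) * (rot a i j t i * rot a i j t j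
      * (L p (rot a i j t) (rot a i j t j) - L p (rot a i j t) (rot a i j t i)))) t) →
  (∀ a b : ℝ, 0 < b → b < a →
    ∫ z, ev (p - 2) (a * (z.1 - 1) - b * (z.2 - 1)) ∂((chi 1).prod (chi 3))
      < ∫ z, ev (p - 2) (a * (z.1 - 1) - b * (z.2 - 1)) ∂((chi 3).prod (chi 1))) →
  ∀ x y : ℝ, 0 < x → y < 0 → x ^ 2 + y ^ 2 = 1 →
  ∫ z, ev p (x * (z.1 - 1) + y * (z.2 - 1)) ∂((chi 1).prod (chi 1))
    < ∫ u, ev p (u - 1) ∂(chi 1)

/-! ## 5. Small facts for the assembly -/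

/-- JOB GQ-27.  Symmetry, existence of a maximiser, positivity of `L` (`X a + b w` has no atom at
`0` for `b ≠ 0`, `chi 2` has no atoms), first order condition. -/
def S_MISC : Prop := S_CHIP → S_INT3 → S_CONTL →
  ∀ (ι : Type) [Fintype ι] [DecidableEq ι] (p : ℝ), 2 < p →
  (∀ a : ι → ℝ, mom p (-a) = mom p a ∧ mu p (-a) = - mu p a ∧
    (∀ b, L p (-a) b = L p a (-b)) ∧ (∀ b, deriv (L p (-a)) b = - deriv (L p a) (-b))) ∧
  (∀ (a : ι → ℝ) (b : ℝ), b ≠ 0 → 0 < L p a b) ∧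
  (Nonempty ι → ∃ a : ι → ℝ, ∑ i, (a i) ^ 2 = 1 ∧
    ∀ a' : ι → ℝ, ∑ i, (a' i) ^ 2 = 1 → mom p a' ≤ mom p a) ∧
  (∀ (a : ι → ℝ) (i j : ι) (t : ℝ), i ≠ j → ∑ k, (rot a i j t k) ^ 2 = ∑ k, (a k) ^ 2)

end Q201.GQ
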