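import Pool.Agent.Q201.GQ.Stm

/-!
Assembly of project GQ: every maximiser of the `p`-th moment is `± e_i`.
-/

namespace Q201.GQ

open MeasureTheory ProbabilityTheory Real

structure Facts : Prop where
  chip : S_CHIP
  chimul : S_CHIMUL
  chiconv : S_CHICONV
  chig : S_CHIG
  ints : S_INTS
  step : S_STEP
  int3 : S_INT3
  ibp : S_IBP
  res : S_RES
  derl : S_DERL
  contl : S_CONTL
  star : S_STAR
  mrot : S_MROT
  second : S_SECOND
  ana : S_ANA
  dist : S_DIST
  ldist : S_LDIST
  diff : S_DIFF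
  pos1 : S_POS1
  pos2 : S_POS2
  qv : S_QV
  bigs : S_BIGS
  eta : S_ETA
  smalls : S_SMALLS
  pos3 : S_POS3
  opp : S_OPP
  misc : S_MISC

variable {ι : Type} [Fintype ι] [DecidableEq ι]

omit [Fintype ι] in
theorem rot_zero (a : ι → ℝ) (i j : ι) (hij : i ≠ j) : rot a i j 0 = a := by
  unfold rot
  simp

namespace Facts

variable (F : Facts)
include F

theorem L_cont {p : ℝ} (hp : 2 < p) (a : ι → ℝ) : Continuous (L p a) := by
  have h := (F.contl F.chip F.int3 ι p hp).1
  exact h.comp (Continuous.prodMk_right a)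

/-- first order condition -/
theorem first {p : ℝ} (hp : 2 < p) {a : ι → ℝ}
    (hmax : ∀ a' : ι → ℝ, ∑ i, (a' i) ^ 2 = ∑ i, (a i) ^ 2 → mom p a' ≤ mom p a)
    {i j : ι} (hi : a i ≠ 0) (hj : a j ≠ 0) : L p a (a i) = L p a (a j) := by
  by_cases hij : i = j
  · rw [hij]
  have hd := F.mrot F.chip F.int3 F.ibp F.derl F.chimul F.chiconv F.step ι p hp a i j hij 0
  have hloc : IsLocalMax (fun t => mom p (rot a i j t)) 0 := by
    refine Filter.Eventually.of_forall fun t => ?_
    simp only [rot_zero a i j hij]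
    exact hmax _ ((F.misc F.chip F.int3 F.contl ι p hp).2.2.2 a i j t hij)
  have h0 := hloc.hasDerivAt_eq_zero hd
  rw [rot_zero a i j hij] at h0
  have h1 : 2 * p * (p - 1) ≠ 0 := by
    have : 0 < 2 * p * (p - 1) := by
      apply mul_pos <;> nlinarith
    exact this.ne'
  rcases mul_eq_zero.1 h0 with h | h
  · exact absurd h h1
  · rcases mul_eq_zero.1 h with h | h
    · rcases mul_eq_zero.1 h with h | h
      · exact absurd h hi
      · exact absurd h hj
    · linarith


theorem second' {p : ℝ} (hp : 2 < p) {a : ι → ℝ}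
    (hmax : ∀ a' : ι → ℝ, ∑ i, (a' i) ^ 2 = ∑ i, (a i) ^ 2 → mom p a' ≤ mom p a)
    {i j : ι} (hij : i ≠ j) (he : a i = a j) (h0 : a i ≠ 0) :
    a i * deriv (L p a) (a i) ≤ 0 :=
  F.second F.chip F.int3 F.step F.derl F.contl ι p hp a
    (fun a i j hij t => F.mrot F.chip F.int3 F.ibp F.derl F.chimul F.chiconv F.step ι p hp
      a i j hij t) hmax i j hij he h0

omit [DecidableEq ι] in
theorem ana' {p : ℝ} (hp : 2 < p) {a : ι → ℝ} (hmu : mu p a ≤ 0) {lam : ℝ} (hl : 0 < lam)
    (hv : ∀ i, a i ≠ 0 → L p a (a i) = lam) :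
    (∀ i j k, a i ≠ 0 → a j ≠ 0 → a k ≠ 0 → a i = a j ∨ a j = a k ∨ a i = a k) ∧
    (∀ i j, a i ≠ 0 → a j ≠ 0 → a j < a i →
      0 < deriv (L p a) (a i) ∧ deriv (L p a) (a j) < 0) := by
  classical
  obtain ⟨h1, h2⟩ := F.star F.chip F.chimul F.chiconv F.step F.int3 F.ibp F.res F.derl ι p hp a
  refine F.ana ι p hp a (L p a) (mu p a) lam (F.L_cont hp a) ?_ hmu hl h1 h2 hv
  intro b hb
  exact ((F.derl F.chip F.step F.int3 ι p hp a).2 b hb).differentiableAt

/-- the one-valued case with at least two coordinates is not critical to second order -/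
theorem one_value {p : ℝ} (hp : 2 < p) {a : ι → ℝ} (I : Finset ι) {x : ℝ} (hx : x ≠ 0)
    (hI : I.Nonempty) (h1 : ∀ i ∈ I, a i = x) (h2 : ∀ k, k ∉ I → a k = 0) :
    0 < x * deriv (L p a) x := by
  have h := (F.ldist F.chip F.chimul F.chiconv F.step F.int3 F.derl F.dist ι p hp I ∅ x 0 a hI
    (Finset.disjoint_empty_right _) h1 (by simp) (fun k hk _ => h2 k hk)).2 rfl
  rw [h.1 hx]
  have hk : (0 : ℝ) < I.card := by exact_mod_cast Finset.card_pos.2 hI
  have h3 := (F.pos1 F.chip F.chiconv F.step F.ints).2 (p - 2) (by linarith) I.card hk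
  have he : ∀ u : ℝ, ev (p - 2) (x * (u - I.card)) = |x| ^ (p - 2) * ev (p - 2) (u - I.card) := by
    intro u
    unfold ev
    rw [abs_mul, mul_rpow (abs_nonneg _) (abs_nonneg _)]
  simp only [he, integral_const_mul]
  rw [← mul_sub]
  exact mul_pos (rpow_pos_of_pos (abs_pos.2 hx) _) (by linarith)

/-- two values of the same sign are not critical -/
theorem two_values {p : ℝ} (hp : 2 < p) {a : ι → ℝ} (I J : Finset ι) {x y : ℝ}
    (hI : I.Nonempty) (hJ : J.Nonempty) (hIJ : Disjoint I J) (h1 : ∀ i ∈ I, a i = x)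
    (h2 : ∀ j ∈ J, a j = y) (h3 : ∀ k, k ∉ I → k ∉ J → a k = 0) (hxy : y < x)
    (hs : 0 < x * y) : L p a x ≠ L p a y := by
  have h := (F.ldist F.chip F.chimul F.chiconv F.step F.int3 F.derl F.dist ι p hp I J x y a hI
    hIJ h1 h2 h3).1 hJ
  have hk : (0 : ℝ) < I.card := by exact_mod_cast Finset.card_pos.2 hI
  have hl : (0 : ℝ) < J.card := by exact_mod_cast Finset.card_pos.2 hJ
  have hd := F.diff F.chip F.chiconv F.step F.ints (p - 2) (by linarith) I.card J.card hk hl x y
    (-(x * I.card) - y * J.card)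
  have e1 : ∀ z : ℝ × ℝ, x * z.1 + y * z.2 + (-(x * I.card) - y * J.card)
      = x * (z.1 - I.card) + y * (z.2 - J.card) := fun z => by ring
  simp only [e1] at hd
  rw [← h.1, ← h.2.1] at hd
  intro he
  rw [he, sub_self] at hd
  have hc : 2 * (p - 2) * (x - y) ≠ 0 := by
    have : 0 < 2 * (p - 2) * (x - y) := by
      apply mul_pos <;> nlinarith
    exact this.ne'
  have hO : ∫ z, od (p - 2 - 1) (x * (z.1 - I.card) + y * (z.2 - J.card))
      ∂((chi (I.card + 2)).prod (chi (J.card + 2))) = 0 := by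
    rcases mul_eq_zero.1 hd.symm with h | h
    · exact absurd h hc
    · exact h
  rcases lt_trichotomy x 0 with hx | hx | hx
  · have hy : y < 0 := by linarith
    have := F.pos2 F.chip F.ints (p - 2 - 1) (by linarith) I.card J.card hk hl (-x) (-y)
      (by linarith) (by linarith)
    have e2 : ∀ z : ℝ × ℝ, od (p - 2 - 1) (-x * (z.1 - I.card) + -y * (z.2 - J.card))
        = - od (p - 2 - 1) (x * (z.1 - I.card) + y * (z.2 - J.card)) := by
      intro z
      have : -x * (z.1 - I.card) + -y * (z.2 - J.card)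
        = -(x * (z.1 - I.card) + y * (z.2 - J.card)) := by ring
      rw [this]
      unfold od
      rw [abs_neg, Real.sign_neg]
      ring
    simp only [e2] at this
    rw [integral_neg, hO] at this
    linarith
  · rw [hx] at hs
    simp at hs
  · have hy : 0 < y := by
      by_contra hy
      nlinarith
    have := F.pos2 F.chip F.ints (p - 2 - 1) (by linarith) I.card J.card hk hl x y hx hy
    rw [hO] at this
    exact lt_irrefl _ this

theorem opp' {p : ℝ} (hp : 2 < p) {x y : ℝ} (hx : 0 < x) (hy : y < 0) (h : x ^ 2 + y ^ 2 = 1) :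
    ∫ z, ev p (x * (z.1 - 1) + y * (z.2 - 1)) ∂((chi 1).prod (chi 1))
    < ∫ u, ev p (u - 1) ∂(chi 1) := by
  refine F.opp F.chip F.contl F.int3 F.ldist F.chimul F.chiconv F.step F.derl F.dist p hp ?_ ?_
    x y hx hy h
  · intro a i j hij t
    exact F.mrot F.chip F.int3 F.ibp F.derl F.chimul F.chiconv F.step (Fin 2) p hp a i j hij t
  · refine F.pos3 F.chip F.chiconv F.step F.ints F.diff F.qv ?_ (p - 2) (by linarith)
    intro s hs d D hd hD
    rcases le_total 1 s with h1 | h1
    · exact F.bigs s h1 d D hd hD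
    · exact F.smalls F.eta s hs h1 d D hd hD

/-- the value at a unit vector -/
theorem mom_single {p : ℝ} (hp : 2 < p) {a : ι → ℝ} (i : ι) (x : ℝ) (h1 : a i = x)
    (h2 : ∀ k, k ≠ i → a k = 0) : mom p a = |x| ^ p * ∫ u, ev p (u - 1) ∂(chi 1) := by
  have h := (F.ldist F.chip F.chimul F.chiconv F.step F.int3 F.derl F.dist ι p hp {i} ∅ x 0 a
    (Finset.singleton_nonempty i) (Finset.disjoint_empty_right _) (by simpa using h1) (by simp)
    (fun k hk _ => h2 k (by simpa using hk))).2 rfl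
  rw [h.2, ← integral_const_mul]
  simp only [Finset.card_singleton, Nat.cast_one]
  refine integral_congr_ae (Filter.Eventually.of_forall fun u => ?_)
  simp only [ev]
  rw [abs_mul, mul_rpow (abs_nonneg _) (abs_nonneg _)]

/-- maximisers have exactly one nonzero coordinate -/
theorem single_neg {p : ℝ} (hp : 2 < p) {a : ι → ℝ} (ha : ∑ i, (a i) ^ 2 = 1)
    (hmax : ∀ a' : ι → ℝ, ∑ i, (a' i) ^ 2 = 1 → mom p a' ≤ mom p a) (hmu : mu p a ≤ 0) :
    ∃ i, a i ≠ 0 ∧ ∀ j, j ≠ i → a j = 0 := by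
  have hmax' : ∀ a' : ι → ℝ, ∑ i, (a' i) ^ 2 = ∑ i, (a i) ^ 2 → mom p a' ≤ mom p a :=
    fun a' h => hmax a' (h.trans ha)
  obtain ⟨i0, hi0⟩ : ∃ i, a i ≠ 0 := by
    by_contra h
    push Not at h
    simp [h] at ha
  by_cases hone : ∀ j, a j ≠ 0 → a j = a i0
  · -- one value
    by_cases hs : ∀ j, j ≠ i0 → a j = 0
    · exact ⟨i0, hi0, hs⟩
    · exfalso
      push Not at hs
      obtain ⟨j, hj, hj0⟩ := hs
      have hI := F.one_value hp (a := a) (Finset.univ.filter fun i => a i = a i0) hi0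
        ⟨i0, by simp⟩ (fun i hi => (Finset.mem_filter.1 hi).2) (fun k hk => by
          by_contra hk0
          exact hk (Finset.mem_filter.2 ⟨Finset.mem_univ _, hone k hk0⟩))
      have := F.second' hp hmax' (i := i0) (j := j) (Ne.symm hj) (hone j hj0).symm hi0
      linarith
  · exfalso
    push Not at hone
    obtain ⟨j0, hj0, hne⟩ := hone
    -- choose the larger one as x
    obtain ⟨i, j, hi, hj, hij⟩ : ∃ i j, a i ≠ 0 ∧ a j ≠ 0 ∧ a j < a i := by
      rcases lt_or_gt_of_ne hne with h | h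
      · exact ⟨i0, j0, hi0, hj0, h⟩
      · exact ⟨j0, i0, hj0, hi0, h⟩
    obtain ⟨hA, hB⟩ := F.ana' hp hmu (lam := L p a (a i))
      ((F.misc F.chip F.int3 F.contl ι p hp).2.1 a (a i) hi)
      (fun k hk => F.first hp hmax' hk hi)
    have hmemI : ∀ k, k ∈ Finset.univ.filter (fun k => a k = a i) ↔ a k = a i := by simp
    have hmemJ : ∀ k, k ∈ Finset.univ.filter (fun k => a k = a j) ↔ a k = a j := by simp
    have hdis : Disjoint (Finset.univ.filter (fun k => a k = a i))
        (Finset.univ.filter (fun k => a k = a j)) := by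
      rw [Finset.disjoint_left]
      intro k h1 h2
      rw [hmemI] at h1
      rw [hmemJ] at h2
      rw [h1] at h2
      exact hij.ne' h2
    have hrest : ∀ k, k ∉ Finset.univ.filter (fun k => a k = a i) →
        k ∉ Finset.univ.filter (fun k => a k = a j) → a k = 0 := by
      intro k h1 h2
      rw [hmemI] at h1
      rw [hmemJ] at h2
      by_contra hk
      rcases hA k i j hk hi hj with h | h | h
      · exact h1 h
      · exact hij.ne' h
      · exact h2 h
    have hLL : L p a (a i) = L p a (a j) := F.first hp hmax' hi hj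
    rcases lt_or_ge 0 (a i * a j) with hs | hs
    · exact F.two_values hp _ _ ⟨i, by simp⟩ ⟨j, by simp⟩ hdis (fun k hk => (hmemI k).1 hk)
        (fun k hk => (hmemJ k).1 hk) hrest hij hs hLL
    · -- opposite signs
      have hxpos : 0 < a i := by
        rcases lt_trichotomy (a i) 0 with h | h | h
        · nlinarith
        · exact absurd h hi
        · exact h
      have hyneg : a j < 0 := by
        rcases lt_trichotomy (a j) 0 with h | h | h
        · exact h
        · exact absurd h hj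
        · nlinarith
      obtain ⟨hd1, hd2⟩ := hB i j hi hj hij
      have hI1 : ∀ k, a k = a i → k = i := by
        intro k hk
        by_contra hki
        have := F.second' hp hmax' (i := i) (j := k) (Ne.symm hki) hk.symm hi
        nlinarith
      have hJ1 : ∀ k, a k = a j → k = j := by
        intro k hk
        by_contra hkj
        have := F.second' hp hmax' (i := j) (j := k) (Ne.symm hkj) hk.symm hj
        nlinarith
      have hzero : ∀ k, k ≠ i → k ≠ j → a k = 0 := by
        intro k h1 h2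
        refine hrest k ?_ ?_
        · rw [hmemI]
          exact fun h => h1 (hI1 k h)
        · rw [hmemJ]
          exact fun h => h2 (hJ1 k h)
      have hijne : i ≠ j := fun h => by rw [h] at hij; exact lt_irrefl _ hij
      have h := (F.ldist F.chip F.chimul F.chiconv F.step F.int3 F.derl F.dist ι p hp {i} {j}
        (a i) (a j) a (Finset.singleton_nonempty i) (by simpa using hijne)
        (by simp) (by simp)
        (fun k h1 h2 => hzero k (by simpa using h1) (by simpa using h2))).1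
        (Finset.singleton_nonempty j)
      have hmom := h.2.2
      simp only [Finset.card_singleton, Nat.cast_one] at hmom
      have hsum : (a i) ^ 2 + (a j) ^ 2 = 1 := by
        rw [← ha, ← Finset.sum_subset (Finset.subset_univ {i, j})]
        · rw [Finset.sum_pair hijne]
        · intro k _ hk
          simp only [Finset.mem_insert, Finset.mem_singleton, not_or] at hk
          rw [hzero k hk.1 hk.2]
          simp
      have hlt := F.opp' hp hxpos hyneg hsum
      rw [← hmom] at hlt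
      have hsing : mom p (Pi.single i (1 : ℝ)) = ∫ u, ev p (u - 1) ∂(chi 1) := by
        rw [F.mom_single hp (a := Pi.single i (1 : ℝ)) i 1 (by simp)
          (fun k hk => by simp [Pi.single_apply, hk])]
        simp
      have := hmax (Pi.single i (1 : ℝ)) (by simp [Pi.single_apply])
      rw [hsing] at this
      linarith

/-- maximisers have exactly one nonzero coordinate -/
theorem single {p : ℝ} (hp : 2 < p) {a : ι → ℝ} (ha : ∑ i, (a i) ^ 2 = 1)
    (hmax : ∀ a' : ι → ℝ, ∑ i, (a' i) ^ 2 = 1 → mom p a' ≤ mom p a) :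
    ∃ i, a i ≠ 0 ∧ ∀ j, j ≠ i → a j = 0 := by
  rcases le_total (mu p a) 0 with h | h
  · exact F.single_neg hp ha hmax h
  · have hm := (F.misc F.chip F.int3 F.contl ι p hp).1 a
    obtain ⟨i, h1, h2⟩ := F.single_neg hp (a := -a) (by simpa using ha)
      (fun a' h' => by rw [hm.1]; exact hmax a' h') (by rw [hm.2.1]; linarith)
    refine ⟨i, by simpa using h1, fun j hj => by simpa using h2 j hj⟩

/-- the main inequality with its case of equality -/
theorem main [Nonempty ι] {p : ℝ} (hp : 2 < p) {a : ι → ℝ} (ha : ∑ i, (a i) ^ 2 = 1) :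
    mom p a ≤ ∫ u, ev p (u - 1) ∂(chi 1) ∧
    (mom p a = ∫ u, ev p (u - 1) ∂(chi 1) ↔ ∃ i, ∀ j, j ≠ i → a j = 0) := by
  have hval : ∀ a : ι → ℝ, ∑ i, (a i) ^ 2 = 1 → (∃ i, ∀ j, j ≠ i → a j = 0) →
      mom p a = ∫ u, ev p (u - 1) ∂(chi 1) := by
    rintro a ha ⟨i, hi⟩
    rw [F.mom_single hp i (a i) rfl hi]
    have : (a i) ^ 2 = 1 := by
      rw [← ha, ← Finset.sum_subset (Finset.subset_univ {i})]
      · simp
      · intro k _ hk
        rw [hi k (by simpa using hk)]
        simp
    have h1 : |a i| = 1 := by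
      rw [← sq_abs] at this
      nlinarith [abs_nonneg (a i)]
    rw [h1, one_rpow, one_mul]
  obtain ⟨m, hm, hmax⟩ := (F.misc F.chip F.int3 F.contl ι p hp).2.2.1 inferInstance
  obtain ⟨i, -, hi⟩ := F.single hp hm hmax
  have hm2 := hval m hm ⟨i, hi⟩
  have hle : ∀ a : ι → ℝ, ∑ i, (a i) ^ 2 = 1 → mom p a ≤ ∫ u, ev p (u - 1) ∂(chi 1) := by
    intro a ha
    rw [← hm2]
    exact hmax a ha
  refine ⟨hle a ha, fun h => ?_, hval a ha⟩
  obtain ⟨i, -, hi⟩ := F.single hp ha (fun a' ha' => by rw [h]; exact hle a' ha')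
  exact ⟨i, hi⟩

omit [DecidableEq ι] in
/-- the Gaussian form of the moment -/
theorem mom_gauss {p : ℝ} (hp : 2 < p) (a : ι → ℝ) :
    ∫ g, |∑ i, a i * ((g i) ^ 2 - 1)| ^ p ∂(Measure.pi fun _ : ι => gaussianReal 0 1)
      = mom p a := by
  haveI : IsProbabilityMeasure (chi 1) := (F.chip 1 one_pos).1
  have hmap : (Measure.pi fun _ : ι => gaussianReal 0 1).map (fun g i => (g i) ^ 2) = P ι := by
    unfold P
    have : ∀ i : ι, SigmaFinite ((gaussianReal 0 1).map (fun x : ℝ => x ^ 2)) := by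
      intro i
      rw [F.chig]
      infer_instance
    have h2 := Measure.pi_map_pi (μ := fun _ : ι => gaussianReal 0 1)
      (f := fun (_ : ι) (x : ℝ) => x ^ 2) (fun i => (measurable_id.pow_const 2).aemeasurable)
    rw [h2]
    have := F.chig
    unfold S_CHIG at this
    rw [this]
  unfold mom
  rw [← hmap, integral_map]
  · rfl
  · exact (measurable_pi_lambda _ fun i => (measurable_pi_apply i).pow_const 2).aemeasurable
  · have : Measurable fun u : ι → ℝ => ev p (X a u) := by
      unfold ev X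
      fun_prop
    exact this.aestronglyMeasurable

theorem value {p : ℝ} : ∫ x, |x ^ 2 - 1| ^ p ∂(gaussianReal 0 1) = ∫ u, ev p (u - 1) ∂(chi 1) := by
  have h := F.chig
  unfold S_CHIG at h
  rw [← h, integral_map]
  · rfl
  · exact (measurable_id.pow_const 2).aemeasurable
  · have : Measurable fun u : ℝ => ev p (u - 1) := by
      unfold ev
      fun_prop
    exact this.aestronglyMeasurable

/-- everything together in Gaussian form -/
theorem final (n : ℕ) (hn : 1 ≤ n) (p : ℝ) (hp : 2 < p) :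
    IsGreatest {M : ℝ | ∃ a : Fin n → ℝ, ∑ i, (a i) ^ 2 = 1 ∧
        M = ∫ g, |∑ i, a i * ((g i) ^ 2 - 1)| ^ p
          ∂(Measure.pi fun _ : Fin n => gaussianReal 0 1)}
      (∫ x, |x ^ 2 - 1| ^ p ∂(gaussianReal 0 1)) ∧
    ∀ a : Fin n → ℝ, ∑ i, (a i) ^ 2 = 1 →
      (∫ g, |∑ i, a i * ((g i) ^ 2 - 1)| ^ p ∂(Measure.pi fun _ : Fin n => gaussianReal 0 1)
          = ∫ x, |x ^ 2 - 1| ^ p ∂(gaussianReal 0 1)
        ↔ ∃ i, ∀ j, j ≠ i → a j = 0) := by
  haveI : Nonempty (Fin n) := ⟨⟨0, hn⟩⟩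
  have key : ∀ a : Fin n → ℝ, ∑ i, (a i) ^ 2 = 1 →
      (∫ g, |∑ i, a i * ((g i) ^ 2 - 1)| ^ p ∂(Measure.pi fun _ : Fin n => gaussianReal 0 1)
          ≤ ∫ x, |x ^ 2 - 1| ^ p ∂(gaussianReal 0 1)) ∧
      (∫ g, |∑ i, a i * ((g i) ^ 2 - 1)| ^ p ∂(Measure.pi fun _ : Fin n => gaussianReal 0 1)
          = ∫ x, |x ^ 2 - 1| ^ p ∂(gaussianReal 0 1)
        ↔ ∃ i, ∀ j, j ≠ i → a j = 0) := by
    intro a ha
    rw [F.mom_gauss hp, F.value]
    exact F.main hp ha
  refine ⟨⟨?_, ?_⟩, fun a ha => (key a ha).2⟩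
  · have h1 : ∑ i, ((Pi.single (⟨0, hn⟩ : Fin n) (1 : ℝ) : Fin n → ℝ) i) ^ 2 = 1 := by
      simp [Pi.single_apply]
    refine ⟨Pi.single (⟨0, hn⟩ : Fin n) (1 : ℝ), h1, ?_⟩
    refine ((key _ h1).2.2 ⟨(⟨0, hn⟩ : Fin n), fun j hj => ?_⟩).symm
    exact Pi.single_eq_of_ne hj _
  · rintro M ⟨a, ha, rfl⟩
    exact (key a ha).1

end Facts

end Q201.GQ
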